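import Mathlib
import Pool.Agent.H391Z.GameProof

/-!
Player A has a winning strategy in the set-splitting game `G(E)` exactly when `E` is countable.
-/

namespace Pool.Agent.Results.MP_053b7f_lc.ANoWinUncountable

open Pool.Agent.H391Z.Game

universe u

theorem result (E : Type u) :
    (∃ σ : List (Move E) → Move E, IsWinningForA σ) ↔ Countable E :=
  Pool.Agent.H391Z.Game.main E

end Pool.Agent.Results.MP_053b7f_lc.ANoWinUncountable
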